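import Mathlib

namespace Pool.Agent.Results.MP_727445_co.ConjectureFails

/-- The set of values of the nonempty subset sums of `B`. -/
def subsetSums (B : Finset ℕ) : Set ℤ :=
  {s : ℤ | ∃ T : Finset ℕ, T ⊆ B ∧ T.Nonempty ∧ s = ∑ x ∈ T, (x : ℤ)}

/-- `S` contains an `r`-term arithmetic progression `x, x + d, ..., x + (r-1) d` with `d ≠ 0`. -/
def HasAP (r : ℕ) (S : Set ℤ) : Prop :=
  ∃ x d : ℤ, d ≠ 0 ∧ ∀ i : ℕ, i < r → x + (i : ℤ) * d ∈ S

/-- `g_r(k)`: the least possible largest element `m` of a `k`-element set `B` of positive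
integers (that is, of a sequence `b_1 < ... < b_k = m`) whose nonempty subset sums contain no
`r`-term arithmetic progression. -/
noncomputable def g (r k : ℕ) : ℕ :=
  sInf {m : ℕ | ∃ B : Finset ℕ, B.card = k ∧ (∀ b ∈ B, 0 < b) ∧ IsGreatest (B : Set ℕ) m ∧
    ¬ HasAP r (subsetSums B)}

/-- No nontrivial relation with coefficients in `{-2, ..., 2}`. -/
def NoRel (B : Finset ℕ) : Prop :=
  ∀ c : ℕ → ℤ, (∀ x ∈ B, |c x| ≤ 2) → ∑ x ∈ B, c x * (x : ℤ) = 0 → ∀ x ∈ B, c x = 0

lemma not_hasAP_of_noRel {B : Finset ℕ} (hB : NoRel B) : ¬ HasAP 3 (subsetSums B) := by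
  rintro ⟨x, d, hd, h⟩
  obtain ⟨T₀, h₀, -, e₀⟩ := h 0 (by norm_num)
  obtain ⟨T₁, h₁, -, e₁⟩ := h 1 (by norm_num)
  obtain ⟨T₂, h₂, -, e₂⟩ := h 2 (by norm_num)
  have key : ∀ T : Finset ℕ, T ⊆ B →
      ∑ y ∈ T, (y : ℤ) = ∑ y ∈ B, (if y ∈ T then (1 : ℤ) else 0) * (y : ℤ) := by
    intro T hT
    simp only [ite_mul, one_mul, zero_mul]
    rw [← Finset.sum_filter]
    congr 1
    ext y
    simp only [Finset.mem_filter]
    exact ⟨fun hy => ⟨hT hy, hy⟩, fun hy => hy.2⟩
  rw [key T₀ h₀] at e₀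
  rw [key T₁ h₁] at e₁
  rw [key T₂ h₂] at e₂
  have hz := hB (fun y => (if y ∈ T₀ then (1 : ℤ) else 0) + (if y ∈ T₂ then (1 : ℤ) else 0)
      - 2 * (if y ∈ T₁ then (1 : ℤ) else 0)) (by
        intro y _
        try dsimp only
        split_ifs <;> norm_num) (by
        simp only [sub_mul, add_mul, Finset.sum_sub_distrib, Finset.sum_add_distrib, mul_assoc]
        rw [← Finset.mul_sum, ← e₀, ← e₁, ← e₂]
        push_cast
        ring)
  have h02 : ∑ y ∈ B, (if y ∈ T₀ then (1 : ℤ) else 0) * (y : ℤ)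
      = ∑ y ∈ B, (if y ∈ T₂ then (1 : ℤ) else 0) * (y : ℤ) := by
    apply Finset.sum_congr rfl
    intro y hy
    have := hz y hy
    try dsimp only at this
    by_cases a0 : y ∈ T₀ <;> by_cases a1 : y ∈ T₁ <;> by_cases a2 : y ∈ T₂ <;>
      simp [a0, a1, a2] at this ⊢
  rw [← e₀, ← e₂] at h02
  push_cast at h02
  apply hd
  linarith

/-- `S` has the bit of every `{0,1,2}`-weighted sum of `P`. -/
def Covers (S : ℕ) (P : Finset ℕ) : Prop :=
  ∀ p : ℕ → ℕ, (∀ x ∈ P, p x ≤ 2) → S.testBit (∑ x ∈ P, p x * x) = true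

/-- Boolean certificate: the `{0,1,2}`-weighted sums stay pairwise distinct along the list. -/
def check : ℕ → List ℕ → Bool
  | _, [] => true
  | S, b :: l => Nat.beq (Nat.land S (Nat.shiftLeft S b)) 0 &&
      (Nat.beq (Nat.land S (Nat.shiftLeft S (2 * b))) 0 &&
      check (Nat.lor S (Nat.lor (Nat.shiftLeft S b) (Nat.shiftLeft S (2 * b)))) l)

lemma land_zero {S b u v : ℕ} (h : Nat.land S (Nat.shiftLeft S b) = 0)
    (hu : S.testBit u = true) (hv : S.testBit v = true) : u ≠ v + b := by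
  rintro rfl
  have h1 : (S &&& (S <<< b)).testBit (v + b) = true := by
    rw [Nat.testBit_land, Nat.testBit_shiftLeft, hu]
    simp [hv]
  have h2 : S &&& (S <<< b) = 0 := h
  rw [h2] at h1
  simp at h1

lemma step_norel {S b : ℕ} {P : Finset ℕ} (hc : Covers S P) (hP : NoRel P)
    (h1 : Nat.land S (Nat.shiftLeft S b) = 0)
    (h2 : Nat.land S (Nat.shiftLeft S (2 * b)) = 0) :
    b ∉ P ∧ NoRel (insert b P) ∧
      Covers (Nat.lor S (Nat.lor (Nat.shiftLeft S b) (Nat.shiftLeft S (2 * b)))) (insert b P) := by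
  have hb : b ∉ P := by
    intro hb
    have hu := hc (fun x => if x = b then 1 else 0) (by intro x _; split_ifs <;> norm_num)
    have hv := hc (fun _ => 0) (by intro x _; norm_num)
    have e1 : ∑ x ∈ P, (if x = b then 1 else 0) * x = b := by
      simp [Finset.sum_ite_eq', hb]
    have e2 : ∑ x ∈ P, 0 * x = 0 := by simp
    rw [e1] at hu
    rw [e2] at hv
    exact land_zero h1 hu hv (by omega)
  refine ⟨hb, ?_, ?_⟩
  · intro c hcb hsum
    rw [Finset.sum_insert hb] at hsum
    have hcP : ∀ x ∈ P, |c x| ≤ 2 := fun x hx => hcb x (Finset.mem_insert_of_mem hx)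
    have hcbb := hcb b (Finset.mem_insert_self b P)
    -- positive and negative parts
    have hp := hc (fun x => (c x).toNat) (by
      intro x hx
      have := hcP x hx
      rw [abs_le] at this
      try dsimp only
      omega)
    have hq := hc (fun x => (-c x).toNat) (by
      intro x hx
      have := hcP x hx
      rw [abs_le] at this
      try dsimp only
      omega)
    have hdiff : ((∑ x ∈ P, (c x).toNat * x : ℕ) : ℤ) - ((∑ x ∈ P, (-c x).toNat * x : ℕ) : ℤ)
        = ∑ x ∈ P, c x * (x : ℤ) := by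
      push_cast
      rw [← Finset.sum_sub_distrib]
      apply Finset.sum_congr rfl
      intro x _
      rw [← sub_mul]
      congr 1
      omega
    have hcb0 : c b = 0 := by
      rw [abs_le] at hcbb
      have hcases : c b = -2 ∨ c b = -1 ∨ c b = 0 ∨ c b = 1 ∨ c b = 2 := by omega
      rcases hcases with h | h | h | h | h
      · exfalso
        rw [h] at hsum
        exact land_zero h2 hp hq (by omega)
      · exfalso
        rw [h] at hsum
        exact land_zero h1 hp hq (by omega)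
      · exact h
      · exfalso
        rw [h] at hsum
        exact land_zero h1 hq hp (by omega)
      · exfalso
        rw [h] at hsum
        exact land_zero h2 hq hp (by omega)
    rw [hcb0, zero_mul, zero_add] at hsum
    intro x hx
    rcases Finset.mem_insert.mp hx with rfl | hx
    · exact hcb0
    · exact hP c hcP hsum x hx
  · intro p hp
    rw [Finset.sum_insert hb]
    have hpP := hc p (fun x hx => hp x (Finset.mem_insert_of_mem hx))
    have hpb := hp b (Finset.mem_insert_self b P)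
    set s := ∑ x ∈ P, p x * x with hs
    have e : Nat.lor S (Nat.lor (Nat.shiftLeft S b) (Nat.shiftLeft S (2 * b)))
        = S ||| ((S <<< b) ||| (S <<< (2 * b))) := rfl
    rw [e, Nat.testBit_lor, Nat.testBit_lor, Nat.testBit_shiftLeft, Nat.testBit_shiftLeft]
    have hcases : p b = 0 ∨ p b = 1 ∨ p b = 2 := by omega
    rcases hcases with h | h | h
    · simp [h, hpP]
    · have : 1 * b + s - b = s := by omega
      simp [h, hpP]
    · have : 2 * b + s - 2 * b = s := by omega
      simp [h, hpP]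

lemma check_sound : ∀ (l : List ℕ) (S : ℕ) (P : Finset ℕ), Covers S P → NoRel P →
    check S l = true → NoRel (P ∪ l.toFinset) ∧ (P ∪ l.toFinset).card = P.card + l.length := by
  intro l
  induction l with
  | nil => intro S P _ hP _; simp [hP]
  | cons b l ih =>
    intro S P hc hP h
    simp only [check, Bool.and_eq_true] at h
    obtain ⟨h1, h2, h3⟩ := h
    obtain ⟨hb, hP', hc'⟩ := step_norel hc hP (Nat.eq_of_beq_eq_true h1) (Nat.eq_of_beq_eq_true h2)
    obtain ⟨i1, i2⟩ := ih _ _ hc' hP' h3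
    have e : P ∪ (b :: l).toFinset = insert b P ∪ l.toFinset := by
      ext y
      simp only [List.toFinset_cons, Finset.mem_union, Finset.mem_insert]
      tauto
    rw [e]
    refine ⟨i1, ?_⟩
    rw [i2, Finset.card_insert_of_notMem hb, List.length_cons]
    ring

lemma noRel_of_check (l : List ℕ) (h : check 1 l = true) :
    NoRel l.toFinset ∧ l.toFinset.card = l.length := by
  have h0 : Covers 1 ∅ := by intro p _; simp
  have h1 : NoRel ∅ := by intro c _ _ x hx; simp at hx
  have := check_sound l 1 ∅ h0 h1 h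
  simpa using this

/-- A set with the given number of elements and the given maximum, without relations. -/
def Exists (k m : ℕ) : Prop :=
  ∃ B : Finset ℕ, B.card = k ∧ (∀ b ∈ B, 0 < b) ∧ IsGreatest (B : Set ℕ) m ∧ NoRel B

lemma g_le {k m : ℕ} (h : Exists k m) : g 3 k ≤ m := by
  obtain ⟨B, h1, h2, h3, h4⟩ := h
  exact Nat.sInf_le ⟨B, h1, h2, h3, not_hasAP_of_noRel h4⟩

lemma exists_step {k m : ℕ} (h : Exists k m) : Exists (k + 1) (3 * m) := by
  obtain ⟨B, h1, h2, h3, h4⟩ := h
  have hinj : Function.Injective (fun x : ℕ => 3 * x) := fun a b hab => by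
    simp only at hab; omega
  have hnot : 1 ∉ B.image (fun x => 3 * x) := by
    simp only [Finset.mem_image, not_exists, not_and]
    intro x _ hx
    omega
  have hmpos : 0 < m := h2 m h3.1
  refine ⟨insert 1 (B.image (fun x => 3 * x)), ?_, ?_, ⟨?_, ?_⟩, ?_⟩
  · rw [Finset.card_insert_of_notMem hnot, Finset.card_image_of_injective _ hinj, h1]
  · intro b hb
    rcases Finset.mem_insert.mp hb with rfl | hb
    · norm_num
    · obtain ⟨x, hx, rfl⟩ := Finset.mem_image.mp hb
      have := h2 x hx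
      omega
  · apply Finset.mem_coe.mpr
    apply Finset.mem_insert_of_mem
    exact Finset.mem_image.mpr ⟨m, h3.1, rfl⟩
  · intro b hb
    rcases Finset.mem_insert.mp (Finset.mem_coe.mp hb) with rfl | hb
    · omega
    · obtain ⟨x, hx, rfl⟩ := Finset.mem_image.mp hb
      have := h3.2 hx
      try dsimp only
      omega
  · intro c hc hsum
    rw [Finset.sum_insert hnot, Finset.sum_image (fun a _ b _ hab => hinj hab)] at hsum
    have hc1 := hc 1 (Finset.mem_insert_self _ _)
    have h3s : ∑ x ∈ B, c (3 * x) * ((3 * x : ℕ) : ℤ) = 3 * ∑ x ∈ B, c (3 * x) * (x : ℤ) := by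
      rw [Finset.mul_sum]
      apply Finset.sum_congr rfl
      intro x _
      push_cast
      ring
    rw [h3s] at hsum
    rw [abs_le] at hc1
    have hz : c 1 = 0 := by
      push_cast at hsum
      omega
    have hs0 : ∑ x ∈ B, c (3 * x) * (x : ℤ) = 0 := by
      rw [hz] at hsum
      linarith
    have := h4 (fun x => c (3 * x)) (fun x hx => hc _ (Finset.mem_insert_of_mem
      (Finset.mem_image.mpr ⟨x, hx, rfl⟩))) hs0
    intro x hx
    rcases Finset.mem_insert.mp hx with rfl | hx
    · exact hz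
    · obtain ⟨y, hy, rfl⟩ := Finset.mem_image.mp hx
      exact this y hy

lemma exists_add {k m : ℕ} (h : Exists k m) (i : ℕ) : Exists (k + i) (m * 3 ^ i) := by
  induction i with
  | zero => simpa using h
  | succ i ih =>
    have := exists_step ih
    have e : m * 3 ^ (i + 1) = 3 * (m * 3 ^ i) := by ring
    rw [e]
    exact this

lemma exists_of_check (l : List ℕ) (m : ℕ) (h : check 1 l = true) (hm : m ∈ l)
    (hall : ∀ x ∈ l, 0 < x ∧ x ≤ m) : Exists l.length m := by
  obtain ⟨h1, h2⟩ := noRel_of_check l h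
  refine ⟨l.toFinset, h2, ?_, ⟨?_, ?_⟩, h1⟩
  · intro b hb
    exact (hall b (List.mem_toFinset.mp hb)).1
  · simpa using hm
  · intro b hb
    exact (hall b (List.mem_toFinset.mp (Finset.mem_coe.mp hb))).2

lemma exists_three : Exists 3 8 :=
  exists_of_check [5, 7, 8] 8 (by decide +kernel) (by decide) (by decide)

set_option maxRecDepth 100000 in
lemma exists_fifteen : Exists 15 2597520 :=
  exists_of_check [1723870, 2301058, 2496898, 2563355, 2585805, 2593499, 2596137, 2597030,
    2597346, 2597456, 2597497, 2597511, 2597517, 2597518, 2597520] 2597520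
    (by decide +kernel) (by decide) (by decide)

lemma g_mem {k m : ℕ} (h : Exists k m) :
    ∃ B : Finset ℕ, B.card = k ∧ (∀ b ∈ B, 0 < b) ∧ IsGreatest (B : Set ℕ) (g 3 k) ∧
      ¬ HasAP 3 (subsetSums B) := by
  obtain ⟨B, h1, h2, h3, h4⟩ := h
  have hne : {m : ℕ | ∃ B : Finset ℕ, B.card = k ∧ (∀ b ∈ B, 0 < b) ∧
      IsGreatest (B : Set ℕ) m ∧ ¬ HasAP 3 (subsetSums B)}.Nonempty :=
    ⟨m, B, h1, h2, h3, not_hasAP_of_noRel h4⟩
  exact Nat.sInf_mem hne

lemma g_one : g 3 1 = 1 := by
  have hE : Exists 1 1 := exists_of_check [1] 1 (by decide +kernel) (by decide) (by decide)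
  apply le_antisymm (g_le hE)
  obtain ⟨B, -, h2, h3, -⟩ := g_mem hE
  exact h2 _ h3.1

lemma g_two : g 3 2 = 3 := by
  have hE : Exists 2 3 := exists_of_check [1, 3] 3 (by decide +kernel) (by decide) (by decide)
  apply le_antisymm (g_le hE)
  obtain ⟨B, h1, h2, h3, h4⟩ := g_mem hE
  by_contra hlt
  push Not at hlt
  have hsub : B ⊆ {1, 2} := by
    intro b hb
    have hb1 := h2 b hb
    have hb2 := h3.2 (Finset.mem_coe.mpr hb)
    simp only [Finset.mem_insert, Finset.mem_singleton]
    omega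
  have hB : B = {1, 2} := Finset.eq_of_subset_of_card_le hsub (by rw [h1]; decide)
  apply h4
  rw [hB]
  refine ⟨1, 1, by norm_num, ?_⟩
  intro i hi
  have hi3 : i = 0 ∨ i = 1 ∨ i = 2 := by omega
  rcases hi3 with rfl | rfl | rfl
  · exact ⟨{1}, by decide, by decide, by simp⟩
  · exact ⟨{2}, by decide, by decide, by simp⟩
  · exact ⟨{1, 2}, by decide, by decide, by simp⟩

lemma g_three_add (i : ℕ) : g 3 (3 + i) ≤ 8 * 3 ^ i := g_le (exists_add exists_three i)

/-- **Main result.** The conjectured formula `g_3(k) = 3^(k-1)` holds only for `k = 1, 2`; for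
every `k ≥ 3` one has `g_3(k) ≤ (8/9) * 3^(k-1)`, and `g_3(k) ≤ 0.5431 * 3^(k-1)` for all
`k ≥ 15`. -/
theorem result :
    (∀ k : ℕ, 1 ≤ k → (g 3 k = 3 ^ (k - 1) ↔ k ≤ 2)) ∧
    (∀ k : ℕ, 3 ≤ k → (g 3 k : ℝ) ≤ 8 / 9 * 3 ^ (k - 1)) ∧
    (∀ k : ℕ, 15 ≤ k → (g 3 k : ℝ) ≤ 0.5431 * 3 ^ (k - 1)) := by
  refine ⟨?_, ?_, ?_⟩
  · intro k hk
    rcases Nat.lt_or_ge k 3 with h3 | h3
    · have h12 : k = 1 ∨ k = 2 := by omega
      rcases h12 with rfl | rfl
      · simp [g_one]
      · simp [g_two]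
    · obtain ⟨i, rfl⟩ := Nat.exists_eq_add_of_le h3
      have h := g_three_add i
      have e : 3 ^ (3 + i - 1) = 9 * 3 ^ i := by
        rw [show 3 + i - 1 = 2 + i by omega, pow_add]; norm_num
      have hpos : 0 < 3 ^ i := by positivity
      constructor
      · intro hg
        rw [e] at hg
        omega
      · intro h2
        omega
  · intro k hk
    obtain ⟨i, rfl⟩ := Nat.exists_eq_add_of_le hk
    have h := g_three_add i
    have e : (3 : ℝ) ^ (3 + i - 1) = 9 * 3 ^ i := by
      rw [show 3 + i - 1 = 2 + i by omega, pow_add]; norm_num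
    rw [e]
    have h' : (g 3 (3 + i) : ℝ) ≤ 8 * 3 ^ i := by exact_mod_cast h
    linarith
  · intro k hk
    obtain ⟨i, rfl⟩ := Nat.exists_eq_add_of_le hk
    have h := g_le (exists_add exists_fifteen i)
    have e : (3 : ℝ) ^ (15 + i - 1) = 4782969 * 3 ^ i := by
      rw [show 15 + i - 1 = 14 + i by omega, pow_add]; norm_num
    rw [e]
    have h' : (g 3 (15 + i) : ℝ) ≤ 2597520 * 3 ^ i := by exact_mod_cast h
    have : (0 : ℝ) < 3 ^ i := by positivity
    nlinarith

end Pool.Agent.Results.MP_727445_co.ConjectureFails
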